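import Pool.Agent.H27.Mono

set_option autoImplicit false

open Filter Topology Pointwise

namespace Pool.Agent.Results.MP_06b617_an.Levi

variable {X : Type*} [NormedAddCommGroup X] [NormedSpace ℝ X] [PartialOrder X]
  [IsOrderedAddMonoid X] [PosSMulMono ℝ X]

theorem posFun {c : ℝ} (hc : ∀ x y : X, 0 ≤ x → x ≤ y → ‖x‖ ≤ c * ‖y‖) (hc0 : 0 < c) {r : ℝ}
    (hr : 0 < r) {x : X} (hx : 0 ≤ x) (h : c * r ≤ ‖x‖) :
    ∃ f : StrongDual ℝ X, ‖f‖ ≤ 1 ∧ (∀ y, 0 ≤ y → 0 ≤ f y) ∧ r / 2 ≤ f x := by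
  obtain ⟨f, hf⟩ := geometric_hahn_banach_open_point (s := Metric.ball (0 : X) r + Set.Iic 0)
    (x := x) ((convex_ball _ _).add (convex_Iic 0)) Metric.isOpen_ball.add_right (by
      rintro ⟨y, hy, p, hp, rfl⟩
      have h1 := hc _ y hx (add_le_of_nonpos_right hp)
      have h2 := mul_lt_mul_of_pos_left (mem_ball_zero_iff.1 hy) hc0
      linarith)
  have h0 : 0 < f x := by simpa using hf _ ⟨0, Metric.mem_ball_self hr, 0, le_rfl, rfl⟩
  have h1 : ∀ y, 0 ≤ y → 0 ≤ f y := fun y hy => by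
    by_contra h2
    have h3 : f y < 0 := not_le.1 h2
    have := hf _ ⟨0, Metric.mem_ball_self hr, (f x / f y) • y,
      smul_nonpos_of_nonpos_of_nonneg (div_nonpos_of_nonneg_of_nonpos h0.le h3.le) hy, rfl⟩
    simp [div_mul_cancel₀ _ h3.ne] at this
  have h2 : ‖f‖ ≤ f x / (r / 2) := f.opNorm_le_of_unit_norm (by positivity) fun y hy => by
    have a1 : ‖(r / 2) • y‖ < r := by
      rw [norm_smul, hy, Real.norm_of_nonneg (by positivity)]; linarith
    have a2 := hf _ ⟨_, mem_ball_zero_iff.2 a1, 0, le_rfl, rfl⟩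
    have a3 := hf _ ⟨-((r / 2) • y), mem_ball_zero_iff.2 (by rwa [norm_neg]), 0, le_rfl, rfl⟩
    simp only [add_zero, map_neg, map_smul, smul_eq_mul] at a2 a3
    rw [le_div_iff₀' (by positivity), Real.norm_eq_abs]
    rcases abs_cases (f y) with h | h <;> rw [h.1] <;> linarith
  refine ⟨(r / 2 / f x) • f, ?_, fun y hy => mul_nonneg (by positivity) (h1 y hy), ?_⟩
  · rw [norm_smul, Real.norm_of_nonneg (by positivity), div_mul_eq_mul_div, div_le_one h0]
    rwa [le_div_iff₀' (by positivity)] at h2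
  · simp [h0.ne']

theorem result (X : Type*) [NormedAddCommGroup X] [NormedSpace ℝ X] [CompleteSpace X]
    [TopologicalSpace.SeparableSpace X] [PartialOrder X] [IsOrderedAddMonoid X] [PosSMulMono ℝ X]
    (hclosed : IsClosed (Set.Ici (0 : X)))
    (hS : ∀ x : ℕ → X, Monotone x → BddAbove (Set.range x) → ∃ s, IsLUB (Set.range x) s)
    (z : ℕ → X) (hz : Monotone z) (hb : BddAbove (Set.range z)) :
    ∃ l, Tendsto z atTop (𝓝 l) := by
  classical
  obtain ⟨c, hc0, hc⟩ := Pool.Agent.H27.Mono.normal hclosed hS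
  refine cauchySeq_tendsto_of_complete (Metric.cauchySeq_iff'.2 fun ε hε => ?_)
  by_contra hcon
  push Not at hcon
  choose nx hn1 hn2 using hcon
  obtain ⟨b, hb⟩ := hb
  let φ : ℕ → ℕ := fun k => nx^[k] 0
  let x : ℕ → X := fun k => z (φ (k + 1)) - z (φ k)
  have hφ : ∀ k, φ (k + 1) = nx (φ k) := fun k => Function.iterate_succ_apply' _ _ _
  have hx0 : ∀ k, 0 ≤ x k := fun k => sub_nonneg.2 (hz (hφ k ▸ hn1 _))
  have hr : 0 < ε / c := by positivity
  choose f hf1 hf2 hf3 using fun k => posFun hc hc0 hr (hx0 k) (by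
    rw [mul_div_cancel₀ _ hc0.ne']; simpa [x, hφ, dist_eq_norm] using hn2 (φ k))
  obtain ⟨g, -, ψ, hψ, hg⟩ := WeakDual.isSeqCompact_closedBall ℝ X 0 1
    (x := fun k => StrongDual.toWeakDual (f k)) (fun k => by simpa using hf1 k)
  have hg' : ∀ y, Tendsto (fun k => f (ψ k) y) atTop (𝓝 (g y)) := fun y =>
    ((WeakDual.eval_continuous y).tendsto g).comp hg
  have hg0 : ∀ y, 0 ≤ y → 0 ≤ g y := fun y hy => ge_of_tendsto' (hg' y) fun k => hf2 _ y hy
  let p : Set ℕ → ℕ → X := fun A n => ∑ k ∈ Finset.range n, if k ∈ A then x k else 0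
  have hp0 : ∀ (A : Set ℕ) k, 0 ≤ (if k ∈ A then x k else 0) := fun A k => by
    split_ifs; exacts [hx0 k, le_rfl]
  have hpm : ∀ A, Monotone (p A) := fun A => monotone_nat_of_le_succ fun n => by
    simp only [p, Finset.sum_range_succ]; exact le_add_of_nonneg_right (hp0 A n)
  choose s hs using fun A => hS (p A) (hpm A) ⟨b - z (φ 0), by
    rintro _ ⟨n, rfl⟩
    refine (Finset.sum_le_sum (g := x) fun k _ => ?_).trans ?_
    · split_ifs; exacts [le_rfl, hx0 k]
    · rw [Finset.sum_range_sub fun k => z (φ k)]; exact sub_le_sub_right (hb ⟨_, rfl⟩) _⟩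
  have hadd : ∀ A A' B : Set ℕ, Disjoint A A' → A ⊆ B → A' ⊆ B → s A + s A' ≤ s B := by
    intro A A' B h1 h2 h3
    refine le_sub_iff_add_le.1 ((hs A).2 ?_)
    rintro _ ⟨n, rfl⟩
    refine le_sub_comm.1 ((hs A').2 ?_)
    rintro _ ⟨m, rfl⟩
    refine le_sub_iff_add_le'.2 ((add_le_add (hpm A (le_max_left n m))
      (hpm A' (le_max_right n m))).trans (le_trans ?_ ((hs B).1 ⟨max n m, rfl⟩)))
    simp only [p, ← Finset.sum_add_distrib]
    refine Finset.sum_le_sum fun k _ => ?_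
    by_cases a1 : k ∈ A
    · simp [a1, h2 a1, Set.disjoint_left.1 h1 a1]
    · by_cases a2 : k ∈ A'
      · simp [a1, a2, h3 a2]
      · simpa [a1, a2] using hp0 B k
  let A : ℕ → Set ℕ := fun i => Set.range fun t => ψ (Nat.pair i t)
  let B : ℕ → Set ℕ := fun N => {j | ∃ i, N ≤ i ∧ j ∈ A i}
  have hA : ∀ i, ε / c / 2 ≤ g (s (A i)) := fun i => by
    refine ge_of_tendsto' ((hg' _).comp
      (tendsto_atTop_mono (fun t => Nat.right_le_pair i t) tendsto_id)) fun t => ?_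
    have h1 : x (ψ (Nat.pair i t)) ≤ s (A i) := by
      refine le_trans ?_ ((hs _).1 ⟨ψ (Nat.pair i t) + 1, rfl⟩)
      simp only [p, Finset.sum_range_succ]
      rw [if_pos ⟨t, rfl⟩]
      exact le_add_of_nonneg_left (Finset.sum_nonneg fun k _ => hp0 _ k)
    have h2 := hf2 (ψ (Nat.pair i t)) _ (sub_nonneg.2 h1)
    rw [map_sub] at h2
    exact (hf3 _).trans (sub_nonneg.1 h2)
  have hB : ∀ N : ℕ, N * (ε / c / 2) + g (s (B N)) ≤ g (s (B 0)) := fun N => by
    induction N with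
    | zero => simp
    | succ N ih =>
      have h1 := hg0 _ (sub_nonneg.2 (hadd (A N) (B (N + 1)) (B N) (Set.disjoint_left.2 (by
        rintro _ ⟨t, rfl⟩ ⟨i, hi, u, hu⟩
        have := (Nat.pair_eq_pair.1 (hψ.injective hu)).1
        omega)) (fun j hj => ⟨N, le_rfl, hj⟩) fun j ⟨i, hi, hj⟩ => ⟨i, by omega, hj⟩))
      rw [map_sub, map_add] at h1
      have := hA N
      push_cast; linarith
  obtain ⟨N, hN⟩ := exists_nat_gt (g (s (B 0)) / (ε / c / 2))
  have h1 := hB N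
  have h2 := hg0 (s (B N)) (by simpa [p] using (hs (B N)).1 ⟨0, rfl⟩)
  rw [div_lt_iff₀ (half_pos hr)] at hN
  linarith

end Pool.Agent.Results.MP_06b617_an.Levi
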